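import Mathlib
import Pool.Agent.Lib.MP_b1ff30_co.EC6

set_option autoImplicit false

namespace Pool.Agent.Results.MP_b1ff30_co.CharTwoPerturbation

/-- Antipodal bases lie in the same component of the complementary basis graph, for every matroid
obtained over a field of characteristic two from a graphic matroid by adding `a` rows with entries
`0, 1` and adding, or adding and contracting, `d` columns, where `3 a + d ≤ 3`. -/
theorem result (K : Type*) [Field K] [CharP K 2]
    (α W : Type) [Finite α] [Finite W] [DecidableEq W] (s t : α → W)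
    (a : ℕ) (σ : α → Fin a → ZMod 2) (V : Type*) [AddCommGroup V] [Module K V]
    (π : ((W → K) × (Fin a → K)) →ₗ[K] V) (D : Set α) (v : α → V)
    (hD : ∀ e, e ∉ D →
      v e = π (Pi.single (s e) 1 + Pi.single (t e) 1, fun i => ((σ e i).val : K)))
    (hd : 3 * a + (D.ncard + Module.finrank K (LinearMap.ker π)) ≤ 3)
    (M : Matroid α) (hE : M.E = Set.univ)
    (hv : ∀ I : Set α, LinearIndepOn K v I → M.Indep I)
    (B : Set α) (hB : M.IsBase B) (hBc : M.IsBase Bᶜ)
    (hvB : LinearIndepOn K v B) (hvBc : LinearIndepOn K v Bᶜ) :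
    Relation.ReflTransGen
      (fun X Y : Set α =>
        M.IsBase X ∧ M.IsBase Xᶜ ∧ M.IsBase Y ∧ M.IsBase Yᶜ ∧
          ∃ x ∈ X, ∃ y, y ∉ X ∧ Y = insert y (X \ {x}))
      B Bᶜ := by
  refine Pool.Agent.Lib.MP_b1ff30_co.EC6.main K α W s t a (fun e i => ((σ e i).val : K))
    (fun e i => ⟨by rw [CharTwo.two_eq_zero, zero_mul], ?_⟩) V π D v (fun e he => ?_) 8
    (by rw [if_pos (ringChar.eq K 2)]) (by omega) M hE hv B hB hBc hvB hvBc
  · have h : (σ e i).val = 0 ∨ (σ e i).val = 1 := by have := (σ e i).val_lt; omega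
    rcases h with h | h <;> simp [h]
  · rw [hD e he]
    congr 2
    exact funext fun w => (CharTwo.sub_eq_add _ _).symm

end Pool.Agent.Results.MP_b1ff30_co.CharTwoPerturbation
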