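import Pool.Agent.Lib.MP_b1ff30_co.Old.PathWidthEight

set_option autoImplicit false

namespace Pool.Agent.Results.MP_b1ff30_co.PathWidthBound

/-- Antipodal bases lie in the same component of the complementary basis graph for every matroid
with a representable weak-map image, keeping both bases, of path-width at most `2 q - 2`, where
`q` is infinite in characteristic `0`, `8` in characteristic `2` and `p ^ 2` in odd
characteristic `p`. -/
theorem result (K : Type*) [Field K] (V : Type*) [AddCommGroup V] [Module K V]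
    (α : Type) [Finite α] (M : Matroid α) (hE : M.E = Set.univ) (v : α → V)
    (hv : ∀ I : Set α, LinearIndepOn K v I → M.Indep I)
    (B : Set α) (hB : M.IsBase B) (hBc : M.IsBase Bᶜ)
    (hvB : LinearIndepOn K v B) (hvBc : LinearIndepOn K v Bᶜ)
    (q : ℕ∞) (hq : q = if ringChar K = 0 then ⊤ else if ringChar K = 2 then 8 else
      ((ringChar K ^ 2 : ℕ) : ℕ∞))
    (c : α → ℕ) (hc : Function.Injective c)
    (hw : ∀ t : ℕ, ((Module.finrank K (Submodule.span K (v '' {x | c x < t})) +
        Module.finrank K (Submodule.span K (v '' {x | t ≤ c x})) + 2 : ℕ) : ℕ∞) ≤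
          (B.ncard : ℕ∞) + 2 * q) :
    Relation.ReflTransGen
      (fun X Y : Set α =>
        M.IsBase X ∧ M.IsBase Xᶜ ∧ M.IsBase Y ∧ M.IsBase Yᶜ ∧
          ∃ x ∈ X, ∃ y, y ∉ X ∧ Y = insert y (X \ {x}))
      B Bᶜ := by
  refine Pool.Agent.Lib.MP_b1ff30_co.Old.PathWidthEight.result K V α M hE v hv B hB hBc hvB hvBc
    _ rfl ?_
  by_cases h0 : ringChar K = 0
  · exact Or.inl h0
  refine Or.inr ⟨c, hc, fun t => ?_⟩
  have h := hw t
  rw [hq, if_neg h0] at h
  split_ifs at h ⊢
  · exact_mod_cast h
  · exact_mod_cast h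

end Pool.Agent.Results.MP_b1ff30_co.PathWidthBound
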