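import Mathlib
import Pool.Agent.Lib.MP_b1ff30_co.KH6

set_option autoImplicit false

namespace Pool.Agent.Results.MP_b1ff30_co.SeparatedMinors

open Pool.Agent.Lib.MP_b1ff30_co

/-- Antipodal bases lie in the same component of the complementary basis graph, for every binary
matroid in which every minor isomorphic to the cycle matroid of `H` is separated from every minor
isomorphic to its dual, where `H` is the complete graph on six vertices with the two disjoint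
edges `12` and `45` removed. -/
theorem result (α : Type) [Finite α] (M : Matroid α) (hE : M.E = Set.univ)
    (V : Type*) [AddCommGroup V] [Module (ZMod 2) V] (v : α → V)
    (hv : ∀ I : Set α, M.Indep I ↔ LinearIndepOn (ZMod 2) v I)
    (h : {p : Fin 6 × Fin 6 // p.1 < p.2 ∧ p ≠ (1, 2) ∧ p ≠ (4, 5)} → Fin 6 → ZMod 2)
    (hh : ∀ p, h p = Pi.single p.1.1 1 + Pi.single p.1.2 1)
    (hK : ∀ (C C' : Set α)
      (f f' : {p : Fin 6 × Fin 6 // p.1 < p.2 ∧ p ≠ (1, 2) ∧ p ≠ (4, 5)} → α),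
      Function.Injective f → Function.Injective f' →
      (∀ I, (M.contract C).Indep (f '' I) ↔ LinearIndepOn (ZMod 2) h I) →
      (∀ I, (M.dual.contract C').Indep (f' '' I) ↔ LinearIndepOn (ZMod 2) h I) →
      ∃ (S : Set α) (k : ℕ), M.eRk S + M.eRk Sᶜ < M.eRank + k ∧
        (k : ℕ∞) ≤ (M.contract C).eRk S ∧ (k : ℕ∞) ≤ (M.dual.contract C').eRk Sᶜ)
    (B : Set α) (hB : M.IsBase B) (hBc : M.IsBase Bᶜ) :
    Relation.ReflTransGen
      (fun X Y : Set α =>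
        M.IsBase X ∧ M.IsBase Xᶜ ∧ M.IsBase Y ∧ M.IsBase Yᶜ ∧
          ∃ x ∈ X, ∃ y, y ∉ X ∧ Y = insert y (X \ {x}))
      B Bᶜ := by
  classical
  obtain rfl : h = KH.hv := funext hh
  let _i : Fintype α := Fintype.ofFinite α
  obtain ⟨B, rfl⟩ : ∃ B' : Finset α, (B' : Set α) = B := ⟨B.toFinset, Set.coe_toFinset B⟩
  rw [← Finset.coe_compl] at hBc ⊢
  refine reach_of8 M v (fun I => (hv I).2) B hB hBc ((hv _).1 hB.indep) ((hv _).1 hBc.indep)
    fun hcard g h1 h2 => ?_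
  have hcc : ∀ X : Finset α, X.card = B.card → Xᶜ.card = B.card := fun X hX => by
    rw [Finset.card_compl]; omega
  have hb : ∀ X : Finset α, X.card = B.card → LinearIndepOn (ZMod 2) v (X : Set α) →
      M.IsBase (X : Set α) := fun X e1 e2 => by
    obtain ⟨Y, e3, e4⟩ := ((hv _).2 e2).exists_isBase_superset
    rwa [Set.eq_of_subset_of_ncard_le e4 (by
      rw [e3.ncard_eq_ncard_of_isBase hB, Set.ncard_coe_finset, Set.ncard_coe_finset, e1])]
  have hd : ∀ X : Finset α, M.IsBase ((Xᶜ : Finset α) : Set α) → M.dual.IsBase (X : Set α) :=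
    fun X e => by
      have := e.compl_isBase_dual
      rwa [hE, ← Set.compl_eq_univ_sdiff, Finset.coe_compl, compl_compl] at this
  have key : ∀ f : Finset α → ZMod 2, UpZ B.card 8 f →
      (∀ X : Finset α, X.card = B.card → f X ≠ 0 →
        M.IsBase (X : Set α) ∧ M.dual.IsBase (X : Set α)) → UpZ B.card (B.card + 1) f := by
    intro f g1 g2
    refine cover_upz' _ _ f g1 fun Z hZ => ?_
    by_cases k0 : ∃ X : Finset α, X.card = B.card ∧ Z ⊆ X ∧ f X ≠ 0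
    swap
    · exact ⟨∅, fun X a1 a2 a3 => absurd ⟨X, a1, a2, a3⟩ k0⟩
    obtain ⟨X₀, k1, k2, k3⟩ := k0
    obtain ⟨C, k4, k5, k6⟩ := Finset.exists_subsuperset_card_eq (n := B.card - 7) k2
      (by omega) (by omega)
    have k7 : ∃ Y : Set α, ∀ X : Set α, M.IsBase X → M.dual.IsBase X →
        (∃ x ∈ X, x ∉ (C : Set α) ∧ x ∈ Y) ∧ ∃ x ∈ X, x ∉ (C : Set α) ∧ x ∈ Yᶜ := by
      rcases KH.alt hv (g2 X₀ k1 k3).1 k5 (by omega) with ⟨Y, a⟩ | ⟨D, f₁, a1, a2, a3, a4⟩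
      · exact ⟨Y, fun X b _ => a X b⟩
      rcases KH.alt (KH.dual_rep hE hv) (g2 X₀ k1 k3).2 k5 (by omega) with
        ⟨Y, a⟩ | ⟨D', f₂, b1, b2, b3, b4⟩
      · exact ⟨Y, fun X _ b => a X b⟩
      obtain ⟨S, k, c1, c2, c3⟩ := hK D D' f₁ f₂ a3 b3 a4 b4
      exact ⟨S, fun X d1 d2 => ⟨KH.sep_meet a1 a2 c2 c1 d1,
        KH.sep_meet b1 b2 c3 (KH.lam_dual hE c1) d2⟩⟩
    obtain ⟨Y, k8⟩ := k7
    refine ⟨Finset.univ.filter fun e => e ∈ Y, fun X b1 _ b3 => ?_⟩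
    obtain ⟨⟨x, c1, c2, c3⟩, y, c4, c5, c6⟩ := k8 X (g2 X b1 b3).1 (g2 X b1 b3).2
    exact ⟨fun b4 => Finset.disjoint_left.1 b4 (Finset.mem_sdiff.2 ⟨c1, fun c => c2 (k4 c)⟩)
      (Finset.mem_filter.2 ⟨Finset.mem_univ _, c3⟩),
      fun b4 => c6 (Finset.mem_filter.1 (b4 (Finset.mem_sdiff.2 ⟨c4, fun c => c5 (k4 c)⟩))).2⟩
  have hq : (8 : ℕ) = qq (ZMod 2) := by rw [qq, if_pos (ZMod.ringChar_zmod_n 2)]
  refine core Finset.univ _ (B.card + 1) g hcard (by omega) (fun _ _ => Finset.subset_univ _)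
    (key g (h1 _ (Or.inr hq)).1 fun X a1 a2 =>
      ⟨hb X a1 (h2 X a1 a2).1, hd X (hb _ (hcc X a1) (h2 X a1 a2).2)⟩)
    (key _ (h1 _ (Or.inr hq)).2 fun X e1 e2 => ?_) B (Finset.subset_univ _) rfl
  rw [cp, if_pos (Finset.subset_univ _), ← Finset.compl_eq_univ_sdiff] at e2
  have e3 := h2 _ (hcc X e1) e2
  rw [compl_compl] at e3
  exact ⟨hb X e1 e3.2, hd X (hb _ (hcc X e1) e3.1)⟩

end Pool.Agent.Results.MP_b1ff30_co.SeparatedMinors
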