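import Mathlib

/-!
A binary matroid of rank 8 with two disjoint bases `A`, `B` and a four-element subset `X` of `A`
that is not serially exchangeable with any subset of `B`.
-/

open Set Matroid

namespace Pool.Agent.Results.MP_b1ff30_co.SerialExchange

theorem exists_vec {α K V : Type} [Finite α] [Field K] [AddCommGroup V] [Module K V]
    (v : α → V) : ∃ M : Matroid α, M.E = univ ∧ ∀ I, M.Indep I ↔ LinearIndepOn K v I := by
  classical
  refine ⟨(IndepMatroid.ofFinite (E := univ) finite_univ (LinearIndepOn K v)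
    (linearIndepOn_empty K v) (fun I J hJ hIJ => hJ.mono hIJ) ?_ (fun I _ => subset_univ I)).matroid,
    rfl, fun I => Iff.rfl⟩
  intro I J hI hJ hlt
  by_contra hc
  push Not at hc
  have hspan : range (fun j : J => v j) ≤ Submodule.span K (v '' I) := by
    rintro _ ⟨⟨j, hj⟩, rfl⟩
    by_cases hjI : j ∈ I
    · exact Submodule.subset_span ⟨j, hjI, rfl⟩
    · have := hc j hj hjI
      rw [linearIndepOn_insert hjI, and_iff_right hI, not_not] at this
      exact this
  have : Fintype J := Fintype.ofFinite J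
  have : Fintype (v '' I) := ((toFinite I).image v).fintype
  have h1 := linearIndependent_le_span_aux' (fun j : J => v j) hJ (v '' I) hspan
  rw [← Nat.card_eq_fintype_card, ← Nat.card_eq_fintype_card, Nat.card_coe_set_eq,
    Nat.card_coe_set_eq] at h1
  have h2 := ncard_image_le (f := v) (toFinite I)
  omega

/-- The columns of the matrix, as binary numbers. -/
def col : Fin 16 → ℕ := ![1, 2, 4, 8, 16, 32, 64, 128, 97, 88, 194, 142, 133, 139, 21, 46]

/-- The sixteen vectors. -/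
def vec (i : Fin 16) (r : Fin 8) : ZMod 2 := if (col i).testBit r then 1 else 0

/-- Supports of vanishing sums of columns, as binary numbers. -/
def cw : List ℕ := [20624, 6155, 34976, 19969, 38152, 49922, 353, 600, 1218, 10245, 12302, 26116,
  26640, 45088, 2190, 4229, 8331]

theorem cw_sum : ∀ w ∈ cw, (∃ i : Fin 16, w.testBit i) ∧
    ∀ r, ∑ i : Fin 16, (if w.testBit i then vec i r else 0) = 0 := by
  decide +kernel

theorem not_indep_of (v : Fin 16 → Fin 8 → ZMod 2) {S : Set (Fin 16)} (p : Fin 16 → Bool)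
    (i : Fin 16) (hi : p i) (hs : ∀ r, ∑ j : Fin 16, (if p j then v j r else 0) = 0)
    (hS : ∀ j, p j → j ∈ S) : ¬ LinearIndepOn (ZMod 2) v S := by
  intro h
  have h1 : LinearIndepOn (ZMod 2) v
      ((Finset.univ.filter fun j : Fin 16 => p j = true : Finset (Fin 16)) : Set (Fin 16)) :=
    h.mono fun j hj => hS j (Finset.mem_filter.1 (Finset.mem_coe.1 hj)).2
  have h0 : ∑ j ∈ Finset.univ.filter fun j : Fin 16 => p j = true, (1 : ZMod 2) • v j = 0 := by
    funext r
    rw [Finset.sum_apply, Finset.sum_filter]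
    simpa only [one_smul, Pi.zero_apply] using hs r
  have h2 : (1 : ZMod 2) = 0 := linearIndepOn_finset_iff.1 h1 (fun _ => 1) h0 i
    (Finset.mem_filter.2 ⟨Finset.mem_univ _, hi⟩)
  exact absurd h2 (by decide)

theorem not_indep {S : Set (Fin 16)} {w : ℕ} (hw : w ∈ cw)
    (hS : ∀ i : Fin 16, w.testBit i → i ∈ S) : ¬ LinearIndepOn (ZMod 2) vec S :=
  (cw_sum w hw).1.elim fun i hi => not_indep_of vec (fun j => w.testBit j) i hi (cw_sum w hw).2 hS

theorem first : ∀ z : Fin 16, z < 4 → ∀ p : Fin 16, 8 ≤ p → p < 14 → ∃ w ∈ cw,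
    (∀ i : Fin 16, w.testBit i → (i < 8 ∧ i ≠ z) ∨ i = p) ∨
      ∀ i : Fin 16, w.testBit i → (8 ≤ i ∧ i ≠ p) ∨ i = z := by
  decide +kernel

set_option synthInstance.maxSize 4096 in
theorem last : ∀ a : Fin 16, 14 ≤ a → ∀ b : Fin 16, 8 ≤ b → b ≠ a → ∀ c : Fin 16, 8 ≤ c → c ≠ a →
    c ≠ b → ∀ d : Fin 16, 8 ≤ d → d ≠ a → d ≠ b → d ≠ c → ∃ w ∈ cw,
    (∀ i : Fin 16, w.testBit i → (4 ≤ i ∧ i < 8) ∨ i = a ∨ i = b ∨ i = c ∨ i = d) ∨
      ∀ i : Fin 16, w.testBit i → (8 ≤ i ∧ i ≠ a ∧ i ≠ b ∧ i ≠ c ∧ i ≠ d) ∨ i < 4 := by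
  decide +kernel

theorem base_of {M : Matroid (Fin 16)} (hM : ∀ I, M.Indep I ↔ LinearIndepOn (ZMod 2) vec I)
    (f : Fin 8 → Fin 16) (hf : Function.Injective f)
    (h : ∀ g : Fin 8 → ZMod 2, (∀ r, ∑ i, g i * vec (f i) r = 0) → ∀ i, g i = 0) :
    M.IsBase (range f) := by
  have hI : LinearIndepOn (ZMod 2) vec (range f) := by
    rw [linearIndepOn_range_iff hf, Fintype.linearIndependent_iff]
    intro g hg
    refine h g fun r => ?_
    simpa [Finset.sum_apply] using congrFun hg r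
  refine ((hM _).2 hI).isBase_of_maximal fun J hJ hsub => ?_
  have : Fintype J := Fintype.ofFinite J
  have h1 := LinearIndependent.fintype_card_le_finrank ((hM J).1 hJ)
  rw [← Nat.card_eq_fintype_card, Nat.card_coe_set_eq, Module.finrank_fin_fun] at h1
  refine eq_of_subset_of_ncard_le hsub ?_
  rwa [ncard_range_of_injective hf, Nat.card_fin]

theorem result : ∃ (M : Matroid (Fin 16)) (v : Fin 16 → Fin 8 → ZMod 2) (A B X : Set (Fin 16)),
    M.E = univ ∧ (∀ I, M.Indep I ↔ LinearIndepOn (ZMod 2) v I) ∧ M.IsBase A ∧ M.IsBase B ∧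
      Disjoint A B ∧ A ∪ B = M.E ∧ A.ncard = 8 ∧ X ⊆ A ∧ X.ncard = 4 ∧
      ¬ ∃ Y ⊆ B, Y.ncard = 4 ∧ M.IsBase ((A \ X) ∪ Y) ∧ M.IsBase ((B \ Y) ∪ X) ∧
        ∃ x ∈ X, ∃ y ∈ Y, M.IsBase (insert y (A \ {x})) ∧ M.IsBase (insert x (B \ {y})) := by
  obtain ⟨M, hE, hM⟩ := exists_vec (K := ZMod 2) vec
  have hA : range (Fin.castAdd 8 : Fin 8 → Fin 16) = {i | i < 8} := by
    ext i
    simp only [mem_range, mem_ofPred_eq]
    revert i
    decide +kernel
  have hB : range (Fin.natAdd 8 : Fin 8 → Fin 16) = {i | 8 ≤ i} := by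
    ext i
    simp only [mem_range, mem_ofPred_eq]
    revert i
    decide +kernel
  have hX : range (Fin.castAdd 12 : Fin 4 → Fin 16) = {i | i < 4} := by
    ext i
    simp only [mem_range, mem_ofPred_eq]
    revert i
    decide +kernel
  refine ⟨M, vec, {i | i < 8}, {i | 8 ≤ i}, {i | i < 4}, hE, hM, ?_, ?_, ?_, ?_, ?_, ?_, ?_, ?_⟩
  · rw [← hA]
    exact base_of hM _ (Fin.castAdd_injective _ _) (by decide +kernel)
  · rw [← hB]
    exact base_of hM _ (Fin.natAdd_injective _ _) (by decide +kernel)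
  · exact Set.disjoint_left.2 fun i (h : i < 8) (h' : 8 ≤ i) => absurd h (not_lt.2 h')
  · rw [hE]
    exact eq_univ_of_forall fun i => lt_or_ge i 8
  · rw [← hA, ncard_range_of_injective (Fin.castAdd_injective _ _), Nat.card_fin]
  · exact fun i (h : i < 4) => lt_trans h (by decide)
  · rw [← hX, ncard_range_of_injective (Fin.castAdd_injective _ _), Nat.card_fin]
  rintro ⟨Y, hY, hc, h1, h2, x, hx, y, hy, h3, h4⟩
  have hy14 : 14 ≤ y := by
    by_contra hlt
    obtain ⟨w, hw, h | h⟩ := first x hx y (hY hy) (not_le.1 hlt)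
    · exact not_indep hw (fun i hi => (h i hi).symm) ((hM _).1 h3.indep)
    · exact not_indep hw (fun i hi => (h i hi).symm) ((hM _).1 h4.indep)
  have h5 : (Y \ {y}).ncard = 3 := by rw [ncard_sdiff_singleton_of_mem hy, hc]
  obtain ⟨b, c, d, hbc, hbd, hcd, h6⟩ := ncard_eq_three.1 h5
  have hb : b ∈ Y \ {y} := by rw [h6]; simp
  have hc' : c ∈ Y \ {y} := by rw [h6]; simp
  have hd : d ∈ Y \ {y} := by rw [h6]; simp
  have h7 : ∀ i ∈ Y, i = y ∨ i = b ∨ i = c ∨ i = d := fun i hi => by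
    by_cases h : i = y
    · exact Or.inl h
    · have : i ∈ Y \ {y} := ⟨hi, h⟩
      rw [h6] at this
      exact Or.inr this
  obtain ⟨w, hw, h | h⟩ := last y hy14 b (hY hb.1) hb.2 c (hY hc'.1) hc'.2 hbc.symm d (hY hd.1) hd.2
    hbd.symm hcd.symm
  · refine not_indep hw (fun i hi => ?_) ((hM _).1 h1.indep)
    rcases h i hi with h | rfl | rfl | rfl | rfl
    exacts [Or.inl ⟨h.2, not_lt.2 h.1⟩, Or.inr hy, Or.inr hb.1, Or.inr hc'.1, Or.inr hd.1]
  · refine not_indep hw (fun i hi => ?_) ((hM _).1 h2.indep)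
    rcases h i hi with h | h
    · exact Or.inl ⟨h.1, fun hi' => by have := h7 i hi'; tauto⟩
    · exact Or.inr h

end Pool.Agent.Results.MP_b1ff30_co.SerialExchange
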